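import Mathlib

namespace Pool.Agent.H.MP_735cdd_lc

open FirstOrder FirstOrder.Language Set

abbrev L : Language := FirstOrder.Language.mk (fun _ => Unit) (fun _ => Empty)

variable {G : Type} [Group G]

def P (a : ℕ → G) : ℕ → ℕ → G → Prop
  | 0, _, _ => True
  | n + 1, k, g => ∃ z, g * (z * z) = a k ∧ P a n (k + 1) z

noncomputable def F : ℕ → ℕ → L.Formula (Unit ⊕ ℕ)
  | 0, _ => ⊤
  | n + 1, k => Formula.iExs Unit ((Term.func (l := 3) ()
      ![.var (.inl (.inl ())), .var (.inr ()), .var (.inr ())]).equal (.var (.inl (.inr k))) ⊓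
      (F n (k + 1)).relabel (Sum.elim .inr fun i => .inl (.inr i)))

theorem real [L.Structure G] (hS : ∀ (n : ℕ) (f : L.Functions n) (xs : Fin n → G),
    Structure.funMap f xs = (List.ofFn xs).prod) (a : ℕ → G) : ∀ n k g,
    (F n k).Realize (Sum.elim (fun _ => g) a) ↔ P a n k g
  | 0, _, _ => by simp [F, P]
  | n + 1, k, g => by
    simp only [F, P, Formula.realize_iExs, Formula.realize_inf, Formula.realize_equal,
      Formula.realize_relabel, Term.realize, hS, ← real hS a n]
    refine ⟨fun ⟨z, h1, h2⟩ => ⟨z (), by simpa using h1, ?_⟩,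
      fun ⟨z, h1, h2⟩ => ⟨fun _ => z, by simpa using h1, ?_⟩⟩ <;>
    · convert h2
      ext (i | i) <;> rfl

theorem elem [L.Structure G] (hS : ∀ (n : ℕ) (f : L.Functions n) (xs : Fin n → G),
    Structure.funMap f xs = (List.ofFn xs).prod) {a b : ℕ → G}
    (h : ∀ n, ∃ e : G ≃* G, ∀ i < n, e (b i) = a i) (φ : L.Formula ℕ) :
    φ.Realize a ↔ φ.Realize b := by
  obtain ⟨n, hn⟩ := φ.freeVarFinset.bddAbove
  obtain ⟨e, he⟩ := h (n + 1)
  let E : G ≃[L] G :=
    { e.toEquiv with
      map_fun' := fun f xs => by simp [hS, map_list_prod, List.map_ofFn]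
      map_rel' := fun r => r.elim }
  rw [← StrongHomClass.realize_formula E φ (v := b)]
  exact (BoundedFormula.realize_restrictFreeVar (φ := φ) (f := id) (v := fun i => a i) a
    fun _ => rfl).symm.trans (BoundedFormula.realize_restrictFreeVar _
      fun i => (he i (Nat.lt_succ_of_le (hn i.2))).symm)

theorem main (h0 : ∀ g : G, ∀ n : ℕ, 0 < n → g ^ n = 1 → g = 1) {X : Set G} (h1 : X.Infinite)
    (h2 : Subgroup.closure X = ⊤) (h3 : ∀ f : X → G, ∃ φ : G →* G, ∀ x : X, φ x = f x) :
    ∃ a b : ℕ → G, (∀ n, ∃ e : G ≃* G, ∀ i < n, e (b i) = a i) ∧ (∀ n, P a n 0 (b 0)) ∧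
      ∀ d, ∃ n, ¬P b n 0 d := by
  classical
  set x : ℕ → G := fun i => h1.natEmbedding X i
  have hx : Function.Injective x := Subtype.val_injective.comp (h1.natEmbedding X).injective
  have hX : ∀ i, x i ∈ X := fun i => (h1.natEmbedding X i).2
  have h4 : ∀ f : G → G, ∃ φ : G →* G, ∀ u ∈ X, φ u = f u := fun f =>
    (h3 fun u => f u).imp fun φ h u hu => h ⟨u, hu⟩
  refine ⟨fun i => x i * (x (i + 1) * x (i + 1)), x, fun n => ?_, fun n => ?_, fun d => ?_⟩
  · suffices ∃ e : G ≃* G, (∀ i < n, e (x i) = x i * (x (i + 1) * x (i + 1))) ∧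
        ∀ i, n ≤ i → e (x i) = x i from this.imp fun _ h => h.1
    induction n with
    | zero => exact ⟨.refl _, by simp, by simp⟩
    | succ n ih =>
      obtain ⟨e, a1, a2⟩ := ih
      choose φ hφ using fun k : ℤ => h4 fun u => if u = x n then x n * x (n + 1) ^ k else u
      have k : ∀ k, (φ k).comp (φ (-k)) = .id G := fun k =>
        MonoidHom.eq_of_eqOn_dense h2 fun u hu => by
          by_cases e : u = x n <;> simp [hφ, hu, e, hX, hx.eq_iff]
      refine ⟨(MonoidHom.toMulEquiv (φ 2) (φ (-2)) (by simpa using k (-2)) (k 2)).trans e,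
        fun i hi => ?_, fun i hi => ?_⟩
      · rcases (Nat.le_of_lt_succ hi).eq_or_lt with rfl | h
        · simpa [hφ, hX, a2] using zpow_two _
        · simp [hφ, hX, hx.eq_iff, h.ne, a1 i h]
      · simp [hφ, hX, hx.eq_iff, (show i ≠ n by omega), a2 i (by omega)]
  · generalize 0 = k
    induction n generalizing k with
    | zero => trivial
    | succ n ih => exact ⟨_, rfl, ih _⟩
  choose π hπ using fun m => h4 fun u => if u = x m then u else 1
  have a1 : ∀ g, {m | π m g ≠ 1}.Finite ∧ ∀ m, π m g ∈ Subgroup.zpowers (x m) := fun g => by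
    induction (h2.ge trivial : g ∈ Subgroup.closure X) using Subgroup.closure_induction with
    | mem u hu =>
      refine ⟨(Subsingleton.finite (s := x ⁻¹' {u}) (subsingleton_singleton.preimage hx)).subset
        fun m hm => by_contra fun h => hm ?_, fun m => ?_⟩
      · rw [hπ m u hu, if_neg (Ne.symm h)]
      · rw [hπ m u hu]
        split_ifs with h <;> simp [h]
    | one => simp
    | mul u v _ _ a b => exact ⟨(a.1.union b.1).subset fun m hm => by
        by_contra h
        simp_all, fun m => map_mul (π m) u v ▸ mul_mem (a.2 m) (b.2 m)⟩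
    | inv u _ a => simpa using a
  obtain ⟨m, hm⟩ := (a1 d).1.exists_notMem
  have a2 : ∀ n k g, k + n = m → P x (n + 1) k g → π m g ≠ 1 := fun n => by
    induction n with
    | zero =>
      rintro k g rfl ⟨z, c, -⟩ e
      obtain ⟨t, ht⟩ := (a1 z).2 k
      have := congrArg (π k) c
      simp only [add_zero] at e
      rw [map_mul, map_mul, e, ← ht, hπ k _ (hX k), if_pos rfl, one_mul] at this
      have := h0 (x k) (t + t - 1).natAbs (by omega) (by
        rw [pow_natAbs_eq_one, zpow_sub_one, zpow_add, this, mul_inv_cancel])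
      obtain ⟨φ, hφ⟩ := h4 fun _ => x (k + 1)
      have e := hφ _ (hX k)
      rw [this, map_one, ← this] at e
      simpa using hx e
    | succ n ih =>
      rintro k g e ⟨z, c, c'⟩ e'
      have := congrArg (π m) c
      rw [map_mul, map_mul, e', hπ m _ (hX k), if_neg (hx.ne (by omega)), one_mul, ← sq] at this
      exact ih _ _ (by omega) c' (h0 _ 2 two_pos this)
  exact ⟨m + 1, fun h => hm (a2 m 0 d (zero_add _) h)⟩

end Pool.Agent.H.MP_735cdd_lc
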